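import Pool.Agent.Q44.LD.StmD
import Pool.Agent.Q24.JQ.LBL

/-!
# LD-NEG (helper225): an integer `u` with the label of the sign such that `-u` is a local square
-/

set_option autoImplicit false
set_option linter.unusedVariables false

namespace Pool.Agent.Q225.LD

open Finset Module Q44.JQ Q44.LD
open Q44.BN (jv)
open Q44.TI (ch ch_zero padic_sq padic_sq2)
open Pool.Agent.Q24.JQ (jv_m1 jv_two recip)

theorem t_NEG : S_NEG := by
  classical
  intro T hT h2
  set P : ℕ := ∏ p ∈ T, p with hP
  have hP0 : 0 < P := Finset.prod_pos fun p hp => (hT p hp).pos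
  have hPe : 2 ∣ P := Finset.dvd_prod_of_mem (fun p : ℕ => p) h2
  have hu16 : (8 * P - 1) % 8 = 7 := by omega
  have hu4 : (8 * P - 1) % 4 = 3 := by omega
  have hodd : Odd (8 * P - 1) := by
    rw [Nat.odd_iff]
    omega
  have hdiv : ∀ p ∈ T, p ∣ 8 * P := fun p hp =>
    (Finset.dvd_prod_of_mem (fun p : ℕ => p) hp).mul_left 8
  have hcop : Cop T (8 * P - 1) := by
    intro p hp hd
    have h1 := Nat.dvd_sub (hdiv p hp) hd
    have h3 : 8 * P - (8 * P - 1) = 1 := by omega
    rw [h3] at h1
    exact (hT p hp).one_lt.ne' (Nat.dvd_one.1 h1)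
  have hm1 : jv (-1) (8 * P - 1) = 1 := by
    rw [jv_m1 hodd, if_neg (by omega)]
  have hcast : ((8 * P - 1 : ℕ) : ℤ) = 8 * (P : ℤ) - 1 := by
    push_cast [Nat.cast_sub (show 1 ≤ 8 * P by omega)]
    ring
  refine ⟨8 * P - 1, hcop, ?_, ?_⟩
  · funext o
    cases o with
    | none =>
      rw [Pi.single_eq_same]
      exact hm1
    | some t =>
      rw [Pi.single_eq_of_ne (by simp)]
      show jv (((t : ℕ) : ℤ)) (8 * P - 1) = 0
      by_cases ht2 : (t : ℕ) = 2
      · rw [ht2]
        have := jv_two hodd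
        rw [if_pos (Or.inr hu16)] at this
        exact_mod_cast this
      · have hpr := hT t t.2
        have : Fact (t : ℕ).Prime := ⟨hpr⟩
        have h3 := recip hpr ht2 hodd (hcop t t.2)
        rw [hm1, mul_one] at h3
        have h4 : ((8 * P - 1 : ℕ) : ZMod t) = -1 := by
          have h5 : ((8 * P : ℕ) : ZMod t) = 0 := by
            rw [ZMod.natCast_eq_zero_iff]
            exact hdiv t t.2
          have h6 : ((8 * P - 1 : ℕ) : ZMod t) + 1 = ((8 * P : ℕ) : ZMod t) := by
            have h7 : 8 * P - 1 + 1 = 8 * P := by omega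
            have h8 := congrArg (fun x : ℕ => (x : ZMod t)) h7
            simp only [Nat.cast_add, Nat.cast_one] at h8
            exact h8
          rw [h5] at h6
          exact eq_neg_of_add_eq_zero_left h6
        rw [h4] at h3
        have h7 : ch (-1 : ZMod t) = if (t : ℕ) % 4 = 1 then 0 else 1 := by
          unfold ch
          have h8 : IsSquare (-1 : ZMod t) ↔ (t : ℕ) % 4 ≠ 3 := ZMod.exists_sq_eq_neg_one_iff
          have hto : (t : ℕ) % 2 = 1 := Nat.odd_iff.1 (hpr.odd_of_ne_two ht2)
          by_cases h9 : (t : ℕ) % 4 = 1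
          · rw [if_pos h9, if_pos (h8.2 (by omega))]
          · rw [if_neg h9, if_neg (fun h => (h8.1 h) (by omega))]
        rw [h7] at h3
        have h10 : ∀ a b : ZMod 2, a = b + a → b = 0 := by decide
        exact h10 _ _ h3
  · intro p _ hp
    have hcast' : (-((8 * P - 1 : ℕ) : ℚ_[p])) = (((1 - 8 * (P : ℤ)) : ℤ) : ℚ_[p]) := by
      have : ((8 * P - 1 : ℕ) : ℚ_[p]) = (((8 * P - 1 : ℕ) : ℤ) : ℚ_[p]) := by push_cast; rfl
      rw [this, hcast]
      push_cast
      ring
    rw [hcast']
    by_cases hp2 : p = 2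
    · subst hp2
      exact padic_sq2 (by omega)
    · refine padic_sq hp2 ?_ ?_
      · intro hd
        have h1 : (p : ℤ) ∣ 8 * (P : ℤ) := by
          have := Int.natCast_dvd_natCast.2 (hdiv p hp)
          push_cast at this
          exact this
        have h3 := dvd_add hd h1
        rw [sub_add_cancel] at h3
        exact (hT p hp).one_lt.ne' (Nat.dvd_one.1 (Int.natCast_dvd_natCast.1 (by simpa using h3)))
      · have h5 : ((8 * P : ℕ) : ZMod p) = 0 := by
          rw [ZMod.natCast_eq_zero_iff]
          exact hdiv p hp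
        push_cast at h5 ⊢
        rw [h5, sub_zero]
        exact ⟨1, by ring⟩

end Pool.Agent.Q225.LD
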